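import Pool.Agent.W666.GB.Main

/-!
# The Gauss–Bonnet–Chern integrand as a perturbation of constant curvature: all distances

The estimate of `Pool/Agent/W666/GB/Final.lean` (where the distance is at most `10⁻⁶ κ n`) for
arbitrary distances `x κ n`; the error is a polynomial of degree `m` in `x`.
-/

set_option autoImplicit false

namespace Pool.Agent.Q144.EW

open Finset Pool.Agent.W666.GB

/-- the constant `2700 e⁵` (about `400716`) -/
noncomputable def cA : ℝ := 2700 * Real.exp 1 ^ 5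

/-- the polynomial `(2 / e²) ∑_{k=1}^m (2700 e⁵ x)^k` -/
noncomputable def err (m : ℕ) (x : ℝ) : ℝ :=
  2 / Real.exp 1 ^ 2 * ∑ k ∈ Finset.Icc 1 m, (cA * x) ^ k

/-- the arithmetic estimate for one term -/
theorem term_le (m k : ℕ) (hk : 0 < k) (hkm : k ≤ m) (κ : ℝ) (hκ : 0 < κ) (x : ℝ) (hx : 0 ≤ x) :
    (m.choose k : ℝ) * (κ ^ (m - k) * ((2 * m).factorial / ((2 * m).descFactorial (2 * k) *
      (2 * k).factorial) * (k.factorial * (21600 * Real.exp 1 * (k : ℝ) ^ 2 *
        (x * κ * (2 * m))) ^ k))) ≤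
    (κ ^ m * (2 * m).factorial) * (2 / Real.exp 1 ^ 2 *
      (2700 * Real.exp 1 ^ 5 * x) ^ k) := by
  have he := Real.exp_pos 1
  have hm : 0 < m := lt_of_lt_of_le hk hkm
  have hm' : (0 : ℝ) < m := by exact_mod_cast hm
  have hk' : (0 : ℝ) < k := by exact_mod_cast hk
  set e := Real.exp 1 with hedef
  -- three estimates
  have h1 : (m.choose k : ℝ) * k.factorial ≤ (m : ℝ) ^ k := by
    have : m.choose k * k.factorial ≤ m ^ k := by
      rw [mul_comm, ← Nat.descFactorial_eq_factorial_mul_choose]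
      exact Nat.descFactorial_le_pow m k
    exact_mod_cast this
  have h2 : ((2 * m : ℕ) : ℝ) ^ (2 * k) ≤ e ^ (2 * k) * ((2 * m).descFactorial (2 * k) : ℝ) :=
    pow_le_exp_desc (2 * m) (2 * k) (by omega)
  have h3 : ((2 * k : ℕ) : ℝ) ^ (2 * k) * e ^ 2 ≤ 2 * e ^ (2 * k) * (2 * k).factorial :=
    pow_self_le (2 * k) (by omega)
  have hD : (0 : ℝ) < ((2 * m).descFactorial (2 * k) : ℝ) := by
    have : 0 < (2 * m).descFactorial (2 * k) := Nat.descFactorial_pos.mpr (by omega)
    exact_mod_cast this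
  have hF : (0 : ℝ) < ((2 * k).factorial : ℝ) := by exact_mod_cast (2 * k).factorial_pos
  have hM : (0 : ℝ) < ((2 * m).factorial : ℝ) := by exact_mod_cast (2 * m).factorial_pos
  set D := ((2 * m).descFactorial (2 * k) : ℝ)
  set F := ((2 * k).factorial : ℝ)
  set M := ((2 * m).factorial : ℝ)
  push_cast at h2 h3
  -- reorganise
  have hκp : κ ^ (m - k) * κ ^ k = κ ^ m := by rw [← pow_add, Nat.sub_add_cancel hkm]
  have e1 : (m.choose k : ℝ) * (κ ^ (m - k) * (M / (D * F) * (k.factorial *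
      (21600 * e * (k : ℝ) ^ 2 * (x * κ * (2 * m))) ^ k))) =
      (κ ^ m * M) * (((m.choose k : ℝ) * k.factorial) * (21600 * e * x) ^ k *
        ((k : ℝ) ^ (2 * k) / F) * ((2 * m : ℝ) ^ k / D)) := by
    rw [← hκp]
    have : (21600 * e * (k : ℝ) ^ 2 * (x * κ * (2 * m))) ^ k =
        κ ^ k * (21600 * e * x) ^ k * (k : ℝ) ^ (2 * k) * (2 * m : ℝ) ^ k := by
      rw [pow_mul, ← mul_pow, ← mul_pow, ← mul_pow]
      congr 1
      ring
    rw [this]
    field_simp
  rw [e1]
  refine mul_le_mul_of_nonneg_left ?_ (by positivity)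
  have h4 : (k : ℝ) ^ (2 * k) / F ≤ 2 / e ^ 2 * (e ^ 2 / 4) ^ k := by
    rw [div_le_iff₀ hF]
    have e2 : (2 * (k : ℝ)) ^ (2 * k) = 4 ^ k * (k : ℝ) ^ (2 * k) := by
      rw [mul_pow, pow_mul 2 2 k]; norm_num
    rw [e2] at h3
    have h5 : (k : ℝ) ^ (2 * k) * (4 ^ k * e ^ 2) ≤ 2 * e ^ (2 * k) * F := by linarith
    rw [← le_div_iff₀ (by positivity)] at h5
    refine h5.trans (le_of_eq ?_)
    rw [div_pow, ← pow_mul]
    field_simp
  have h6 : (2 * m : ℝ) ^ k / D ≤ e ^ (2 * k) / (2 * m : ℝ) ^ k := by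
    rw [div_le_div_iff₀ hD (by positivity), ← pow_add, ← two_mul]
    exact h2
  calc ((m.choose k : ℝ) * k.factorial) * (21600 * e * x) ^ k *
        ((k : ℝ) ^ (2 * k) / F) * ((2 * m : ℝ) ^ k / D)
      ≤ (m : ℝ) ^ k * (21600 * e * x) ^ k *
        (2 / e ^ 2 * (e ^ 2 / 4) ^ k) * (e ^ (2 * k) / (2 * m : ℝ) ^ k) := by
        gcongr
    _ = 2 / e ^ 2 * ((m : ℝ) * (21600 * e * x) * (e ^ 2 / 4) *
          (e ^ 2 / (2 * m : ℝ))) ^ k := by
        rw [pow_mul e 2 k]
        simp only [mul_pow, div_pow]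
        ring
    _ = 2 / e ^ 2 * (2700 * e ^ 5 * x) ^ k := by
        congr 2
        field_simp
        ring

section assembly

variable {B : Type*} [Fintype B] [DecidableEq B]
  {E : B × Bool → B × Bool → B × Bool → B × Bool → ℝ}

/-- **Main estimate.** -/
theorem main_bound (hE : Sym4 E) (hscal : ∑ i, ricc E i i = 0) {κ : ℝ} (hκ : 0 < κ)
    {x : ℝ} (hx : 0 ≤ x)
    (h4 : ∑ i, ∑ j, ∑ p, ∑ l, E i j p l ^ 2 ≤ (x * κ * (2 * Fintype.card B)) ^ 2)
    (h2 : ∑ i, ∑ j, ricc E i j ^ 2 ≤ (x * κ * (2 * Fintype.card B)) ^ 2) :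
    |Yf (fun a b c d => κ * (if a = b then 1 else 0) * (if c = d then 1 else 0) + Cl E a b c d) -
      κ ^ Fintype.card B * (2 * Fintype.card B).factorial| ≤
      (κ ^ Fintype.card B * (2 * Fintype.card B).factorial) * err (Fintype.card B) x := by
  set m := Fintype.card B with hm
  set a : ℝ := x * κ * (2 * m) with ha
  have ha0 : 0 ≤ a := by positivity
  rw [Yf_expand]
  have hsplit := Finset.sum_erase_add (Finset.univ : Finset (Finset B))
    (fun T => κ ^ (m - T.card) * ∑ σ : Equiv.Perm (B × Bool), yf (pb (Cl E) (σ ∘ iT T)))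
    (Finset.mem_univ ∅)
  rw [← hsplit]
  have hempty : κ ^ (m - (∅ : Finset B).card) *
      ∑ σ : Equiv.Perm (B × Bool), yf (pb (Cl E) (σ ∘ iT (∅ : Finset B))) =
      κ ^ m * (2 * m).factorial := by
    have : ∀ σ : Equiv.Perm (B × Bool), yf (pb (Cl E) (σ ∘ iT (∅ : Finset B))) = 1 := by
      intro σ
      simp [yf, sn]
    simp only [this]
    rw [Finset.sum_const, Finset.card_univ, Fintype.card_perm, Fintype.card_prod,
      Fintype.card_bool, Finset.card_empty, Nat.sub_zero, nsmul_eq_mul, mul_one, mul_comm 2 m, hm]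
  rw [hempty, add_sub_cancel_right]
  refine (Finset.abs_sum_le_sum_abs _ _).trans ?_
  have h5 : ∀ T ∈ (Finset.univ : Finset (Finset B)).erase ∅,
      |κ ^ (m - T.card) * ∑ σ : Equiv.Perm (B × Bool), yf (pb (Cl E) (σ ∘ iT T))| ≤
      κ ^ (m - T.card) * ((2 * m).factorial / ((2 * m).descFactorial (2 * T.card) *
        (2 * T.card).factorial) * (T.card.factorial *
          (21600 * Real.exp 1 * (T.card : ℝ) ^ 2 * a) ^ T.card)) := by
    intro T hT
    rw [abs_mul, abs_of_nonneg (by positivity)]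
    refine mul_le_mul_of_nonneg_left ?_ (by positivity)
    exact term_bound hE hscal ha0 h4 h2 T
      (Finset.card_pos.mpr (Finset.nonempty_iff_ne_empty.mpr (Finset.ne_of_mem_erase hT)))
  refine (Finset.sum_le_sum h5).trans ?_
  -- group by cardinality
  set g : ℕ → ℝ := fun k => if k = 0 then 0 else κ ^ (m - k) * ((2 * m).factorial /
    ((2 * m).descFactorial (2 * k) * (2 * k).factorial) * (k.factorial *
          (21600 * Real.exp 1 * (k : ℝ) ^ 2 * a) ^ k)) with hg
  have h6 : ∑ T ∈ (Finset.univ : Finset (Finset B)).erase ∅,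
      κ ^ (m - T.card) * ((2 * m).factorial / ((2 * m).descFactorial (2 * T.card) *
        (2 * T.card).factorial) * (T.card.factorial *
          (21600 * Real.exp 1 * (T.card : ℝ) ^ 2 * a) ^ T.card)) =
      ∑ T ∈ (Finset.univ : Finset B).powerset, g T.card := by
    rw [Finset.powerset_univ, ← Finset.sum_erase_add _ _ (Finset.mem_univ (∅ : Finset B))]
    have h7 : g (∅ : Finset B).card = 0 := by simp [hg]
    rw [h7, add_zero]
    refine Finset.sum_congr rfl fun T hT => ?_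
    have : T.card ≠ 0 := by
      rw [Ne, Finset.card_eq_zero]; exact Finset.ne_of_mem_erase hT
    simp only [hg, if_neg this]
  rw [h6, Finset.sum_powerset_apply_card, Finset.card_univ, ← hm, Finset.sum_range_succ']
  have h8 : (m.choose 0) • g 0 = 0 := by simp [hg]
  rw [h8, add_zero]
  have h9 : ∀ k ∈ Finset.range m, (m.choose (k + 1)) • g (k + 1) ≤
      (κ ^ m * (2 * m).factorial) * (2 / Real.exp 1 ^ 2 *
      (2700 * Real.exp 1 ^ 5 * x) ^ (k + 1)) := by
    intro k hk
    have hkm : k + 1 ≤ m := Finset.mem_range.mp hk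
    have := term_le m (k + 1) (Nat.succ_pos k) hkm κ hκ x hx
    rw [nsmul_eq_mul]
    simp only [hg, if_neg (Nat.succ_ne_zero k), ha]
    exact this
  refine (Finset.sum_le_sum h9).trans (le_of_eq ?_)
  rw [← Finset.mul_sum]
  congr 1
  have h10 : ∑ k ∈ Finset.range m, (2 / Real.exp 1 ^ 2 *
      (2700 * Real.exp 1 ^ 5 * x) ^ (k + 1)) =
      ∑ k ∈ Finset.Icc 1 m, (2 / Real.exp 1 ^ 2 *
      (2700 * Real.exp 1 ^ 5 * x) ^ k) := by
    rw [Finset.range_eq_Ico, Finset.sum_Ico_add' (fun k => 2 / Real.exp 1 ^ 2 *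
      (2700 * Real.exp 1 ^ 5 * x) ^ k) 0 m 1]
    rfl
  rw [h10, err, Finset.mul_sum]
  rfl

end assembly

section curv

variable {V : Type*} [NormedAddCommGroup V] [InnerProductSpace ℝ V] {m : ℕ}
  (e : OrthonormalBasis (Fin m × Bool) ℝ V) {R : V → V → V → V → ℝ}

theorem gbc_close (hR : AlgCurv R) {κ : ℝ} (hκ : 0 < κ)
    (hs : scal e R = -(κ * (2 * m * (2 * m - 1)))) {x : ℝ} (hx : 0 ≤ x)
    (h4 : devR e R κ ≤ (x * κ * (2 * m)) ^ 2)
    (h2 : devRic e R κ ≤ (x * κ * (2 * m)) ^ 2) :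
    |(-1) ^ m * gbc e R - roundGB m κ| ≤ err m x * roundGB m κ := by
  have hE := EE_sym e hR κ
  have hsc : ∑ i, ricc (EE e R κ) i i = 0 := by
    simp only [ricc_EE, if_true, Finset.sum_neg_distrib, Finset.sum_add_distrib,
      Finset.sum_const, Finset.card_univ, Fintype.card_prod, Fintype.card_fin, Fintype.card_bool,
      nsmul_eq_mul]
    have : ∑ i, ∑ j, R (e j) (e i) (e j) (e i) = scal e R := by
      rw [scal, Finset.sum_comm]
    rw [this, hs]
    push_cast; ring
  have hb := main_bound hE hsc hκ hx (by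
      rw [Fintype.card_fin]
      refine le_trans (le_of_eq ?_) h4
      simp only [EE, neg_sq, devR]) (by
      rw [Fintype.card_fin]
      refine le_trans (le_of_eq ?_) h2
      simp only [ricc_EE, neg_sq, devRic])
  rw [Fintype.card_fin] at hb
  have hπ := Real.pi_pos
  have hr : roundGB m κ = 2 ^ m / ((8 * Real.pi) ^ m * m.factorial) *
      (κ ^ m * (2 * m).factorial) := by
    unfold roundGB
    have : (8 * Real.pi) ^ m = 2 ^ m * (4 * Real.pi) ^ m := by
      rw [← mul_pow]; congr 1; ring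
    rw [this]
    field_simp
  have hc : 0 < 2 ^ m / ((8 * Real.pi) ^ m * (m.factorial : ℝ)) := by positivity
  rw [neg_gbc_eq e hR κ, hr, ← mul_sub, abs_mul, abs_of_pos hc]
  calc _ ≤ 2 ^ m / ((8 * Real.pi) ^ m * (m.factorial : ℝ)) *
        ((κ ^ m * (2 * m).factorial) * err m x) := mul_le_mul_of_nonneg_left hb hc.le
    _ = _ := by ring

end curv

end Pool.Agent.Q144.EW
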