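import Pool.Agent.Q144.EW.Bd
import Pool.Agent.TH594.HE.Pt

/-!
# Einstein tensors: the Gauss–Bonnet–Chern integrand and the norm of the Weyl tensor
-/

set_option autoImplicit false

namespace Pool.Agent.Q144.EW

open Finset MeasureTheory Pool.Agent.TH594.HE
open Pool.Agent.W666.GB (AlgCurv gbc scal roundGB unitCurv CurvField devR devRic geom_part
  roundGB_pos inner_e)
open Pool.Agent.W669.HD (negT)
open Pool.Agent.TH594.HP

/-- The Hilbert–Schmidt norm of the difference of `R` and the curvature tensor of constant curvature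
`c`, `(∑ (R_ijkl - c (δ_ik δ_jl - δ_il δ_jk))²)^(1/2)`. If the Ricci tensor of `R` is `(n - 1) c` times
the metric, this is the norm of the Weyl tensor of `R`. -/
noncomputable def weylNorm {m : ℕ} {V : Type} [NormedAddCommGroup V] [InnerProductSpace ℝ V]
    (e : OrthonormalBasis (Fin m × Bool) ℝ V) (R : V → V → V → V → ℝ) (c : ℝ) : ℝ :=
  Real.sqrt (∑ i, ∑ j, ∑ k, ∑ l, (R (e i) (e j) (e k) (e l) - c * unitCurv i j k l) ^ 2)

theorem err_le (m : ℕ) {x : ℝ} (hx : 0 ≤ x) : err m x ≤ 1 / 5 * (1 + (10 ^ 6 * x) ^ m) := by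
  have he := Real.exp_pos 1
  have hA : 0 < cA := by unfold cA; positivity
  have h1 : ∀ k ∈ Finset.Icc 1 m, (cA * x) ^ k ≤
      (cA * (1 / 10 ^ 6)) ^ k * (1 + (10 ^ 6 * x) ^ m) := by
    intro k hk
    obtain ⟨-, hkm⟩ := Finset.mem_Icc.1 hk
    have e1 : (cA * x) ^ k = (cA * (1 / 10 ^ 6)) ^ k * (10 ^ 6 * x) ^ k := by
      rw [← mul_pow]
      congr 1
      ring
    rw [e1]
    refine mul_le_mul_of_nonneg_left ?_ (by positivity)
    rcases le_total (10 ^ 6 * x) 1 with h | h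
    · have h2 : (10 ^ 6 * x) ^ k ≤ 1 := pow_le_one₀ (by positivity) h
      have h3 : 0 ≤ (10 ^ 6 * x) ^ m := by positivity
      linarith
    · have h2 : (10 ^ 6 * x) ^ k ≤ (10 ^ 6 * x) ^ m := pow_le_pow_right₀ h hkm
      linarith
  have h2 := geom_part m
  have h3 : ∑ k ∈ Finset.Icc 1 m, (2 / Real.exp 1 ^ 2 *
      (2700 * Real.exp 1 ^ 5 * (1 / 10 ^ 6)) ^ k) =
      2 / Real.exp 1 ^ 2 * ∑ k ∈ Finset.Icc 1 m, (cA * (1 / 10 ^ 6)) ^ k := by
    rw [Finset.mul_sum]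
    rfl
  rw [h3] at h2
  have h4 : 0 ≤ 1 + (10 ^ 6 * x) ^ m := by positivity
  calc err m x ≤ 2 / Real.exp 1 ^ 2 * ∑ k ∈ Finset.Icc 1 m,
        ((cA * (1 / 10 ^ 6)) ^ k * (1 + (10 ^ 6 * x) ^ m)) := by
        unfold err
        exact mul_le_mul_of_nonneg_left (Finset.sum_le_sum h1) (by positivity)
    _ = (2 / Real.exp 1 ^ 2 * ∑ k ∈ Finset.Icc 1 m, (cA * (1 / 10 ^ 6)) ^ k) *
        (1 + (10 ^ 6 * x) ^ m) := by
        rw [← Finset.sum_mul]
        ring
    _ ≤ _ := mul_le_mul_of_nonneg_right h2 h4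

section point

variable {m : ℕ} {V : Type} [NormedAddCommGroup V] [InnerProductSpace ℝ V]
  (e : OrthonormalBasis (Fin m × Bool) ℝ V) {R : V → V → V → V → ℝ}

theorem weylNorm_nonneg (c : ℝ) : 0 ≤ weylNorm e R c := Real.sqrt_nonneg _

theorem weylNorm_neg (c : ℝ) : weylNorm e (negT R) (-c) = weylNorm e R c := by
  unfold weylNorm negT
  congr 1
  refine Finset.sum_congr rfl fun i _ => Finset.sum_congr rfl fun j _ =>
    Finset.sum_congr rfl fun k _ => Finset.sum_congr rfl fun l _ => ?_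
  ring

theorem sq_weylNorm (κ : ℝ) : weylNorm e R (-κ) ^ 2 = devR e R κ := by
  unfold weylNorm
  rw [Real.sq_sqrt]
  · unfold devR
    refine Finset.sum_congr rfl fun i _ => Finset.sum_congr rfl fun j _ =>
      Finset.sum_congr rfl fun k _ => Finset.sum_congr rfl fun l _ => ?_
    ring
  · exact Finset.sum_nonneg fun _ _ => Finset.sum_nonneg fun _ _ => Finset.sum_nonneg fun _ _ =>
      Finset.sum_nonneg fun _ _ => sq_nonneg _

theorem scal_of {κ : ℝ} (hE : Einstein e R (-κ)) : scal e R = -(κ * (2 * m * (2 * m - 1))) := by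
  unfold scal
  rw [Finset.sum_comm]
  have h1 : ∀ j, ∑ i, R (e i) (e j) (e i) (e j) = (2 * m - 1) * -κ := by
    intro j
    rw [hE, inner_e, if_pos rfl, mul_one]
  rw [Finset.sum_congr rfl fun j _ => h1 j, Finset.sum_const, Finset.card_univ, Fintype.card_prod,
    Fintype.card_fin, Fintype.card_bool, nsmul_eq_mul]
  push_cast
  ring

theorem devRic_of {κ : ℝ} (hE : Einstein e R (-κ)) : devRic e R κ = 0 := by
  unfold devRic
  refine Finset.sum_eq_zero fun j _ => Finset.sum_eq_zero fun l _ => ?_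
  rw [hE, inner_e]
  ring

/-- **The pointwise estimate, negative Einstein constant.** -/
theorem point_neg (hm : 0 < m) (hR : AlgCurv R) {κ : ℝ} (hκ : 0 < κ) (hE : Einstein e R (-κ)) :
    |(-1) ^ m * gbc e R - roundGB m κ| ≤
      1 / 5 * (1 + (10 ^ 6 * weylNorm e R (-κ) / (κ * (2 * m))) ^ m) * roundGB m κ := by
  have hm' : (0 : ℝ) < m := by exact_mod_cast hm
  set x : ℝ := weylNorm e R (-κ) / (κ * (2 * m)) with hx
  have hx0 : 0 ≤ x := div_nonneg (weylNorm_nonneg e _) (by positivity)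
  have h1 : x * κ * (2 * m) = weylNorm e R (-κ) := by
    rw [hx]
    field_simp
  have h2 := gbc_close e hR hκ (scal_of e hE) hx0 (by rw [h1, sq_weylNorm])
    (by rw [devRic_of e hE]; positivity)
  refine h2.trans ?_
  have h3 := err_le m hx0
  have h4 : 10 ^ 6 * x = 10 ^ 6 * weylNorm e R (-κ) / (κ * (2 * m)) := by rw [hx]; ring
  rw [h4] at h3
  exact mul_le_mul_of_nonneg_right h3 (roundGB_pos hκ).le

/-- **The pointwise estimate, positive Einstein constant.** -/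
theorem point_pos (hm : 0 < m) (hR : AlgCurv R) {κ : ℝ} (hκ : 0 < κ) (hE : Einstein e R κ) :
    |gbc e R - roundGB m κ| ≤
      1 / 5 * (1 + (10 ^ 6 * weylNorm e R κ / (κ * (2 * m))) ^ m) * roundGB m κ := by
  have h1 := point_neg e hm (neg_curv hR) hκ hE.neg
  rw [gbc_neg, weylNorm_neg] at h1
  exact h1

end point

section field

variable {M : Type} [MeasurableSpace M] {μ : Measure M} [IsFiniteMeasure μ]

theorem int_close {f w : M → ℝ} {G κ : ℝ} {m : ℕ} (hG : 0 < G) (hf : Integrable f μ)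
    (hw : Integrable (fun p => w p ^ m) μ)
    (h : ∀ p, |f p - G| ≤ 1 / 5 * (1 + (10 ^ 6 * w p / κ) ^ m) * G) :
    |∫ p, f p ∂μ - G * μ.real Set.univ| ≤
      1 / 5 * (μ.real Set.univ + (10 ^ 6 / κ) ^ m * ∫ p, w p ^ m ∂μ) * G := by
  have e1 : ∫ p, f p ∂μ - G * μ.real Set.univ = ∫ p, (f p - G) ∂μ := by
    rw [integral_sub hf (integrable_const G), integral_const, smul_eq_mul, mul_comm G]
  have hi : Integrable (fun p => 1 / 5 * G * (1 + (10 ^ 6 / κ) ^ m * w p ^ m)) μ :=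
    ((integrable_const (1 : ℝ)).add (hw.const_mul _)).const_mul _
  have e2 : ∫ p, 1 / 5 * G * (1 + (10 ^ 6 / κ) ^ m * w p ^ m) ∂μ =
      1 / 5 * (μ.real Set.univ + (10 ^ 6 / κ) ^ m * ∫ p, w p ^ m ∂μ) * G := by
    rw [integral_const_mul, integral_add (integrable_const _) (hw.const_mul _), integral_const,
      integral_const_mul, smul_eq_mul]
    ring
  rw [e1, ← e2, ← Real.norm_eq_abs]
  refine norm_integral_le_of_norm_le hi (Filter.Eventually.of_forall fun p => ?_)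
  rw [Real.norm_eq_abs]
  refine (h p).trans (le_of_eq ?_)
  have : (10 ^ 6 * w p / κ) ^ m = (10 ^ 6 / κ) ^ m * w p ^ m := by
    rw [← mul_pow]
    congr 1
    ring
  rw [this]
  ring

theorem int_pos {I V G κ N : ℝ} {m : ℕ} (hG : 0 < G) (hκ : 0 < κ) (hN : 0 ≤ N)
    (h : |I - G * V| ≤ 1 / 5 * (V + (10 ^ 6 / κ) ^ m * N) * G)
    (hlt : N < 4 * (κ / 10 ^ 6) ^ m * V) : 0 < I := by
  have h1 : (10 ^ 6 / κ) ^ m * (κ / 10 ^ 6) ^ m = 1 := by
    rw [← mul_pow]
    have : (10 : ℝ) ^ 6 / κ * (κ / 10 ^ 6) = 1 := by field_simp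
    rw [this, one_pow]
  have h0 : 0 < (10 ^ 6 / κ) ^ m := by positivity
  have h2 : (10 ^ 6 / κ) ^ m * N < 4 * V := by
    calc (10 ^ 6 / κ) ^ m * N < (10 ^ 6 / κ) ^ m * (4 * (κ / 10 ^ 6) ^ m * V) :=
          mul_lt_mul_of_pos_left hlt h0
      _ = 4 * ((10 ^ 6 / κ) ^ m * (κ / 10 ^ 6) ^ m) * V := by ring
      _ = 4 * V := by rw [h1]; ring
  have h3 := (abs_le.1 h).1
  have h4 : 1 / 5 * (V + (10 ^ 6 / κ) ^ m * N) * G < V * G := by
    refine mul_lt_mul_of_pos_right ?_ hG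
    linarith
  linarith

end field

end Pool.Agent.Q144.EW
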